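import Pool.Agent.Helper99_Eng3.Stmts

/-!
# ENG3, module OE2: higher powers of `p`, odd characteristic
-/

set_option autoImplicit false

namespace Pool.Agent.Eng.H70

open Pool.Agent.Eng

section general
variable {F U : Type} [Field F] [AddCommGroup U] [Module F U] [FiniteDimensional F U]

lemma polar_map (P : QuadraticForm F U) (f : U →ₗ[F] U) (hf : ∀ u, P (f u) = P u) (u w : U) :
    QuadraticMap.polar P (f u) (f w) = QuadraticMap.polar P u w := by
  unfold QuadraticMap.polar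
  rw [← map_add, hf, hf, hf]

/-- An isometric endomorphism of a nondegenerate form is an element of `O(P)`. -/
lemma exists_isom (P : QuadraticForm F U) (hP : ND P) (f : U →ₗ[F] U)
    (hf : ∀ u, P (f u) = P u) : ∃ g ∈ OV P, ∀ u, g u = f u := by
  have hinj : Function.Injective f := by
    rw [← LinearMap.ker_eq_bot, LinearMap.ker_eq_bot']
    intro u hu
    apply hP
    intro w
    rw [← polar_map P f hf, hu]
    exact QuadraticMap.polar_zero_left P (f w)
  refine ⟨LinearEquiv.ofInjectiveEndo f hinj, ?_, fun u => rfl⟩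
  intro u
  exact hf u

lemma omv_le (P : QuadraticForm F U) : OmV P ≤ OV P := by
  refine Subgroup.commutator_le.mpr fun g hg h hh => ?_
  exact (OV P).mul_mem ((OV P).mul_mem ((OV P).mul_mem hg hh) ((OV P).inv_mem hg))
    ((OV P).inv_mem hh)

end general

section
variable {F : Type} [Field F] {m : ℕ} [NeZero m]

/-- The model space. -/
abbrev Mod (F : Type) (m : ℕ) : Type := (ZMod m → F) × F × F

variable (P : QuadraticForm F (Mod F m)) (l : F)

lemma polar_form (hP : ∀ x a b, P (x, a, b) = l * ∑ i, x i ^ 2 + a * b)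
    (x x' : ZMod m → F) (a b a' b' : F) :
    QuadraticMap.polar P (x, a, b) (x', a', b')
      = 2 * l * ∑ i, x i * x' i + (a * b' + a' * b) := by
  unfold QuadraticMap.polar
  rw [Prod.mk_add_mk, Prod.mk_add_mk, hP, hP, hP]
  have h1 : ∑ i, (x + x') i ^ 2 = ∑ i, x i ^ 2 + ∑ i, x' i ^ 2 + 2 * ∑ i, x i * x' i := by
    rw [← Finset.sum_add_distrib, Finset.mul_sum, ← Finset.sum_add_distrib]
    refine Finset.sum_congr rfl fun i _ => ?_
    rw [Pi.add_apply]
    ring
  rw [h1]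
  ring

lemma nd_form (hP : ∀ x a b, P (x, a, b) = l * ∑ i, x i ^ 2 + a * b) (hl : l ≠ 0)
    (h2 : (2 : F) ≠ 0) : ND P := by
  rintro ⟨x, a, b⟩ hu
  have hb : b = 0 := by
    have := hu (0, 1, 0)
    rw [polar_form P l hP] at this
    simpa using this
  have ha : a = 0 := by
    have := hu (0, 0, 1)
    rw [polar_form P l hP] at this
    simpa using this
  have hx : x = 0 := by
    funext j
    have := hu (Pi.single j 1, 0, 0)
    rw [polar_form P l hP] at this
    simpa [Pi.single_apply, h2, hl] using this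
  rw [hx, ha, hb]
  rfl

/-- The isometry with linear part `diag(e)` and translation part `n`. -/
def mdg (l : F) (n e : ZMod m → F) : Mod F m →ₗ[F] Mod F m where
  toFun u := (fun j => e j * u.1 j + u.2.2 * n j,
    u.2.1 - 2 * l * (∑ i, e i * n i * u.1 i) - l * u.2.2 * ∑ i, n i ^ 2, u.2.2)
  map_add' u w := by
    refine Prod.ext ?_ (Prod.ext ?_ rfl)
    · funext j
      simp only [Prod.fst_add, Prod.snd_add, Pi.add_apply]
      ring
    · simp only [Prod.fst_add, Prod.snd_add, Pi.add_apply, mul_add, Finset.sum_add_distrib]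
      ring
  map_smul' c u := by
    refine Prod.ext ?_ (Prod.ext ?_ rfl)
    · funext j
      simp only [Prod.smul_fst, Prod.smul_snd, Pi.smul_apply, smul_eq_mul, RingHom.id_apply]
      ring
    · simp only [Prod.smul_fst, Prod.smul_snd, Pi.smul_apply, smul_eq_mul, RingHom.id_apply]
      have h1 : ∑ i, e i * n i * (c * u.1 i) = c * ∑ i, e i * n i * u.1 i := by
        rw [Finset.mul_sum]
        exact Finset.sum_congr rfl fun i _ => by ring
      rw [h1]
      ring

lemma mdg_isom (hP : ∀ x a b, P (x, a, b) = l * ∑ i, x i ^ 2 + a * b) (n e : ZMod m → F)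
    (he : ∀ j, e j * e j = 1) (u : Mod F m) : P (mdg l n e u) = P u := by
  obtain ⟨x, a, b⟩ := u
  change P (fun j => e j * x j + b * n j,
    a - 2 * l * (∑ i, e i * n i * x i) - l * b * ∑ i, n i ^ 2, b) = P (x, a, b)
  rw [hP, hP]
  have h1 : ∑ i, (e i * x i + b * n i) ^ 2 = ∑ i, x i ^ 2 + 2 * b * ∑ i, e i * n i * x i
      + b ^ 2 * ∑ i, n i ^ 2 := by
    rw [Finset.mul_sum, Finset.mul_sum, ← Finset.sum_add_distrib, ← Finset.sum_add_distrib]
    refine Finset.sum_congr rfl fun i _ => ?_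
    linear_combination (x i ^ 2) * he i
  rw [h1]
  ring

/-- Permutation of the coordinates. -/
def mperm (σ : ZMod m ≃ ZMod m) : Mod F m →ₗ[F] Mod F m where
  toFun u := (fun j => u.1 (σ j), u.2.1, u.2.2)
  map_add' u w := rfl
  map_smul' c u := rfl

lemma mperm_isom (hP : ∀ x a b, P (x, a, b) = l * ∑ i, x i ^ 2 + a * b) (σ : ZMod m ≃ ZMod m)
    (u : Mod F m) : P (mperm σ u) = P u := by
  obtain ⟨x, a, b⟩ := u
  change P (fun j => x (σ j), a, b) = P (x, a, b)
  rw [hP, hP]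
  have h1 : ∑ i, x (σ i) ^ 2 = ∑ i, x i ^ 2 := Equiv.sum_comp σ fun i => x i ^ 2
  rw [h1]

/-- `g` fixes `v = (0,1,0)` and acts on the affine space `b = 1` modulo `v` by `f`. -/
def Good (g : Mod F m ≃ₗ[F] Mod F m) (f : (ZMod m → F) → (ZMod m → F)) : Prop :=
  g ∈ OV P ∧ g (0, 1, 0) = (0, 1, 0) ∧ ∀ z, (g (z, 0, 1)).1 = f z

lemma good_comp (hP : ∀ x a b, P (x, a, b) = l * ∑ i, x i ^ 2 + a * b)
    (g h : Mod F m ≃ₗ[F] Mod F m) (f f' : (ZMod m → F) → (ZMod m → F)) (hg : Good P g f)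
    (hh : Good P h f') : Good P (g * h) (f ∘ f') := by
  obtain ⟨hg1, hg2, hg3⟩ := hg
  obtain ⟨hh1, hh2, hh3⟩ := hh
  refine ⟨(OV P).mul_mem hg1 hh1, ?_, ?_⟩
  · change g (h (0, 1, 0)) = _
    rw [hh2, hg2]
  · intro z
    change (g (h (z, 0, 1))).1 = f (f' z)
    have h1 : (h (z, 0, 1)).2.2 = 1 := by
      have e1 := polar_map P (h : Mod F m →ₗ[F] Mod F m) hh1 (0, 1, 0) (z, 0, 1)
      rw [polar_form P l hP] at e1
      have e2 : (h : Mod F m →ₗ[F] Mod F m) (0, 1, 0) = (0, 1, 0) := hh2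
      rw [e2] at e1
      have e3 : (h : Mod F m →ₗ[F] Mod F m) (z, 0, 1)
          = ((h (z, 0, 1)).1, (h (z, 0, 1)).2.1, (h (z, 0, 1)).2.2) := rfl
      rw [e3, polar_form P l hP] at e1
      simpa using e1
    have h3 : h (z, 0, 1) = (f' z, 0, 1) + (h (z, 0, 1)).2.1 • ((0, 1, 0) : Mod F m) := by
      refine Prod.ext ?_ (Prod.ext ?_ ?_)
      · rw [hh3]; simp
      · simp
      · rw [h1]; simp
    rw [h3, map_add, map_smul, hg2, Prod.fst_add, hg3]
    simp

/-- The affine map of an element of the wreath product. -/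
def aff {R : Type} [CommRing R] (φ : R →+* F) (x : ZMod m → R × ℤˣ) (z : ZMod m → F) :
    ZMod m → F := fun j => (((x j).2 : ℤ) : F) * z j + φ (x j).1

/-- The affine map of `y`. -/
def cyc (z : ZMod m → F) : ZMod m → F := fun j => z (j - 1) + (if j = 0 then 1 else 0)

lemma units_sq (e : ℤˣ) : ((e : ℤ) : F) * ((e : ℤ) : F) = 1 := by
  rcases Int.units_eq_one_or e with h | h <;> simp [h]

lemma aff_cyc {R : Type} [CommRing R] (φ : R →+* F) (x : ZMod m → R × ℤˣ) (z : ZMod m → F) :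
    aff φ x (cyc z) = cyc (aff φ x (aff φ (tw x) z)) := by
  funext j
  change (((x j).2 : ℤ) : F) * (z (j - 1) + (if j = 0 then 1 else 0)) + φ (x j).1
    = ((((x (j - 1)).2 : ℤ) : F) * ((((x (j - 1)).2 * (x (j - 1 + 1)).2 : ℤˣ) : ℤ) * z (j - 1)
      + φ ((((x (j - 1)).2 : ℤ) : R) * ((if j - 1 = -1 then (x 0).1 - 1 + (((x 0).2 : ℤ) : R)
        else (x (j - 1 + 1)).1) - (x (j - 1)).1))) + φ (x (j - 1)).1)
      + (if j = 0 then 1 else 0)
  have h1 : j - 1 + 1 = j := sub_add_cancel j 1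
  have hsq := units_sq (F := F) (x (j - 1)).2
  rw [h1, map_mul, map_sub, map_intCast, Units.val_mul, Int.cast_mul]
  by_cases hj : j = 0
  · have h3 : j - 1 = -1 := by rw [hj, zero_sub]
    rw [if_pos hj, if_pos h3, map_add, map_sub, map_one, map_intCast]
    rw [hj] at hsq ⊢
    linear_combination (-(((x 0).2 : ℤ) : F) * z (0 - 1) - (φ (x 0).1 - 1 + (((x 0).2 : ℤ) : F)
      - φ (x (0 - 1)).1)) * hsq
  · have h3 : j - 1 ≠ -1 := by
      intro h
      apply hj
      have := congrArg (· + 1) h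
      simpa using this
    rw [if_neg hj, if_neg h3]
    linear_combination (-(((x j).2 : ℤ) : F) * z (j - 1) - (φ (x j).1
      - φ (x (j - 1)).1)) * hsq

lemma cyc_inj (z w : ZMod m → F) (h : cyc z = cyc w) : z = w := by
  funext j
  have h1 := congrFun h (j + 1)
  unfold cyc at h1
  rw [add_sub_cancel_right] at h1
  exact add_right_cancel h1

lemma aff_inj {R : Type} [CommRing R] (φ : R →+* F) (x : ZMod m → R × ℤˣ) (z w : ZMod m → F)
    (h : aff φ x z = aff φ x w) : z = w := by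
  funext j
  have h1 := congrFun h j
  unfold aff at h1
  have h3 := add_right_cancel h1
  have hsq := units_sq (F := F) (x j).2
  calc z j = (((x j).2 : ℤ) : F) * ((((x j).2 : ℤ) : F) * z j) := by
        rw [← mul_assoc, hsq, one_mul]
    _ = w j := by rw [h3, ← mul_assoc, hsq, one_mul]

lemma aff_inj2 {R : Type} [CommRing R] (φ : R →+* F) (hφ : Function.Injective φ)
    (h2 : (2 : F) ≠ 0) (x y : ZMod m → R × ℤˣ)
    (h : ∀ z, aff φ x z = aff φ y z) : x = y := by
  have h0 : ∀ j, φ (x j).1 = φ (y j).1 := by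
    intro j
    have := congrFun (h 0) j
    simpa [aff] using this
  funext j
  refine Prod.ext (hφ (h0 j)) ?_
  have h1 := congrFun (h 1) j
  unfold aff at h1
  rw [h0 j] at h1
  have h3 := add_right_cancel h1
  rw [Pi.one_apply, mul_one, mul_one] at h3
  rcases Int.units_eq_one_or (x j).2 with ha | ha <;>
    rcases Int.units_eq_one_or (y j).2 with hb | hb <;> rw [ha, hb] at h3 ⊢
  · exfalso
    apply h2
    push_cast at h3
    linear_combination h3
  · exfalso
    apply h2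
    push_cast at h3
    linear_combination -h3

lemma exists_x {R : Type} [CommRing R] (φ : R →+* F)
    (hP : ∀ x a b, P (x, a, b) = l * ∑ i, x i ^ 2 + a * b) (hN : ND P)
    (x : ZMod m → R × ℤˣ) : ∃ g, Good P g (aff φ x) := by
  obtain ⟨g, hg, hg2⟩ := exists_isom P hN
    (mdg l (fun j => φ (x j).1) fun j => (((x j).2 : ℤ) : F))
    (mdg_isom P l hP _ _ fun j => units_sq _)
  refine ⟨g, hg, ?_, ?_⟩
  · rw [hg2]
    refine Prod.ext ?_ (Prod.ext ?_ rfl)
    · funext j
      simp [mdg]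
    · simp [mdg]
  · intro z
    rw [hg2]
    funext j
    simp [mdg, aff]

lemma exists_shift (hP : ∀ x a b, P (x, a, b) = l * ∑ i, x i ^ 2 + a * b) (hN : ND P)
    (hm : Odd m) : ∃ h ∈ OmV P, ∀ x a b, h (x, a, b) = (fun j => x (j - 1), a, b) := by
  obtain ⟨t, ht⟩ : ∃ t : ZMod m, t + t = 1 := by
    obtain ⟨n, hn⟩ := hm
    refine ⟨((n + 1 : ℕ) : ZMod m), ?_⟩
    rw [← Nat.cast_add]
    have : n + 1 + (n + 1) = m + 1 := by omega
    rw [this, Nat.cast_add, ZMod.natCast_self, zero_add, Nat.cast_one]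
  obtain ⟨s, hs, hs2⟩ := exists_isom P hN (mperm (Equiv.subRight t)) (mperm_isom P l hP _)
  obtain ⟨r, hr, hr2⟩ := exists_isom P hN (mperm (Equiv.neg (ZMod m))) (mperm_isom P l hP _)
  have hs3 : ∀ x a b, s (x, a, b) = (fun j => x (j - t), a, b) := fun x a b => hs2 (x, a, b)
  have hr3 : ∀ x a b, r (x, a, b) = (fun j => x (-j), a, b) := fun x a b => hr2 (x, a, b)
  refine ⟨s * r * s⁻¹ * r⁻¹, Subgroup.commutator_mem_commutator hs hr, ?_⟩
  intro x a b
  have key : ∀ u, s (r u) = (s * r * s⁻¹ * r⁻¹) (r (s u)) := by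
    intro u
    change _ = (s * r * s⁻¹ * r⁻¹ * r * s) u
    rw [inv_mul_cancel_right, inv_mul_cancel_right]
    rfl
  have h1 := key (fun i => x (-i - t), a, b)
  rw [hr3, hs3, hs3, hr3] at h1
  have h3 : (fun j : ZMod m => x (-(-j - t) - t)) = x := by
    funext j
    congr 1
    ring
  rw [h3] at h1
  rw [← h1]
  refine Prod.ext ?_ rfl
  funext j
  change x (-(-(j - t)) - t) = x (j - 1)
  congr 1
  rw [← ht]
  ring

lemma exists_y [Finite F] (h1 : OeicStmt) (hP : ∀ x a b, P (x, a, b) = l * ∑ i, x i ^ 2 + a * b)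
    (hN : ND P) (hm : Odd m) (hm3 : 3 ≤ m) : ∃ y ∈ OmV P, Good P y cyc := by
  obtain ⟨h, hh, hh2⟩ := exists_shift P l hP hN hm
  have hfr : 5 ≤ Module.finrank F (Mod F m) := by
    rw [Module.finrank_prod, Module.finrank_prod, Module.finrank_pi, Module.finrank_self,
      ZMod.card]
    omega
  obtain ⟨E, hE, hE2⟩ := h1 F (Mod F m) P hN hfr (0, 1, 0) (Pi.single 0 1, 0, 0)
    (by rw [hP]; simp) (by rw [polar_form P l hP]; simp)
  have hle : OmV P ≤ OV P := omv_le P
  refine ⟨E * h, (OmV P).mul_mem hE hh, (OV P).mul_mem (hle hE) (hle hh), ?_, ?_⟩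
  · have e0 : h (0, 1, 0) = (0, 1, 0) := by rw [hh2]; rfl
    change E (h (0, 1, 0)) = _
    rw [e0, hE2, polar_form P l hP, polar_form P l hP]
    simp
  · intro z
    change (E (h (z, 0, 1))).1 = cyc z
    rw [hh2, hE2]
    rw [polar_form P l hP, polar_form P l hP]
    funext j
    simp [cyc, Pi.single_apply]

lemma good_eng {R : Type} [CommRing R] (φ : R →+* F)
    (hP : ∀ x a b, P (x, a, b) = l * ∑ i, x i ^ 2 + a * b)
    (y X : Mod F m ≃ₗ[F] Mod F m) (x : ZMod m → R × ℤˣ) (hy : Good P y cyc)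
    (hx : Good P X (aff φ x)) : Good P (eng y X) (aff φ (tw x)) := by
  have hw1 : eng y X ∈ OV P := by
    unfold eng
    exact (OV P).mul_mem ((OV P).mul_mem ((OV P).mul_mem ((OV P).inv_mem hx.1)
      ((OV P).inv_mem hy.1)) hx.1) hy.1
  have hmul : y * X * eng y X = X * y := by
    unfold eng
    group
  have hw2 : eng y X (0, 1, 0) = (0, 1, 0) := by
    have h1 : y (X (eng y X (0, 1, 0))) = X (y (0, 1, 0)) := by
      change (y * X * eng y X) (0, 1, 0) = _
      rw [hmul]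
      rfl
    rw [hy.2.1, hx.2.1] at h1
    apply X.injective
    apply y.injective
    rw [h1, hx.2.1, hy.2.1]
  have hg : Good P (eng y X) fun z => (eng y X (z, 0, 1)).1 := ⟨hw1, hw2, fun _ => rfl⟩
  have h1 := good_comp P l hP _ _ _ _ (good_comp P l hP _ _ _ _ hy hx) hg
  have h2 := good_comp P l hP _ _ _ _ hx hy
  rw [hmul] at h1
  refine ⟨hw1, hw2, fun z => ?_⟩
  have h3 := h1.2.2 z
  rw [h2.2.2 z] at h3
  have h4 : cyc (aff φ x (aff φ (tw x) z)) = cyc (aff φ x (eng y X (z, 0, 1)).1) := by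
    rw [← aff_cyc]
    exact h3
  exact (aff_inj φ x _ _ (cyc_inj _ _ h4)).symm

lemma good_iter {R : Type} [CommRing R] (φ : R →+* F)
    (hP : ∀ x a b, P (x, a, b) = l * ∑ i, x i ^ 2 + a * b)
    (y X : Mod F m ≃ₗ[F] Mod F m) (x : ZMod m → R × ℤˣ) (hy : Good P y cyc)
    (hx : Good P X (aff φ x)) (r : ℕ) : Good P ((eng y)^[r] X) (aff φ (tw^[r] x)) := by
  induction r with
  | zero => exact hx
  | succ r ih =>
    rw [Function.iterate_succ_apply', Function.iterate_succ_apply']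
    exact good_eng P l φ hP y _ _ hy ih

end

theorem oe2 (h1 : OwrStmt) (h2 : OeicStmt) (h3 : OeobStmt) (h4 : OtrStmt) : Oe2Stmt := by
  intro F V _ _ _ _ _ Q p k _ hQ hp hp2 hk hdim d hd hlaw
  set m : ℕ := p ^ (k - 1) with hm
  have hm0 : m ≠ 0 := pow_ne_zero _ hp.ne_zero
  haveI : NeZero m := ⟨hm0⟩
  have hodd : Odd m := (hp.odd_of_ne_two hp2).pow
  have hm3 : 3 ≤ m := by
    have e1 : p ^ 1 ≤ p ^ (k - 1) := Nat.pow_le_pow_right hp.pos (by omega)
    have e2 := hp.two_le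
    rw [pow_one] at e1
    omega
  have h2F : (2 : F) ≠ 0 := by
    intro h
    have e1 : ((2 : ℕ) : F) = 0 := by exact_mod_cast h
    have e2 := (CharP.cast_eq_zero_iff F p 2).mp e1
    exact hp2 ((Nat.prime_dvd_prime_iff_eq hp Nat.prime_two).mp e2)
  obtain ⟨l, ι, hl, hι⟩ := h3 F V Q m hQ h2F hodd hdim
  let P : QuadraticForm F (Mod F m) := QuadraticMap.comp Q ι
  have hP : ∀ x a b, P (x, a, b) = l * ∑ i, x i ^ 2 + a * b := fun x a b => hι x a b
  have hN : ND P := nd_form P l hP hl h2F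
  obtain ⟨r, hr⟩ := h4 F (Mod F m) V P Q ι hN (fun _ => rfl) d hlaw
  obtain ⟨x0, hx0⟩ := h1 p (k - 1) 1 hp hp2 (by omega) le_rfl
  haveI : CharP F (p ^ 1) := by rw [pow_one]; infer_instance
  let φ : ZMod (p ^ 1) →+* F := ZMod.castHom (dvd_refl (p ^ 1)) F
  have hφ : Function.Injective φ := ZMod.castHom_injective F
  obtain ⟨X, hX⟩ := exists_x P l φ hP hN x0
  obtain ⟨y, hy, hyc⟩ := exists_y P l h2 hP hN hodd hm3
  obtain ⟨c, hc⟩ := hr X hX.1 y hy
  have g1 := good_iter P l φ hP y X x0 hyc hX (r + d)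
  have g2 := good_iter P l φ hP y X x0 hyc hX r
  have hc1 : c = 1 := by
    have e1 := hc (0, 1, 0)
    rw [g1.2.1, g2.2.1] at e1
    have e2 := congrArg (fun u : Mod F m => u.2.1) e1
    simpa using e2.symm
  have hfin : tw^[r + d] x0 = tw^[r] x0 := by
    apply aff_inj2 φ hφ h2F
    intro z
    rw [← g1.2.2 z, ← g2.2.2 z, hc, hc1, one_smul]
  have hres := hx0 r d hd hfin
  have hk1 : k - 1 + 1 = k := by omega
  rwa [hk1] at hres

end Pool.Agent.Eng.H70
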