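import Pool.Agent.Helper99_Eng3.Stmts

/-!
# ENG3, module OWRS: a sign vector on which the Engel map acts as a rotation
-/

set_option autoImplicit false

namespace Pool.Agent.Eng.H70

open Pool.Agent.Eng

/-- The sign of an element of `F₂`. -/
def sgn (a : ZMod 2) : ℤˣ := if a = 0 then 1 else -1

lemma sgn_add (a b : ZMod 2) : sgn (a + b) = sgn a * sgn b := by
  revert a b; decide

lemma sgn_eq_one (a : ZMod 2) (h : sgn a = 1) : a = 0 := by
  revert a; decide

lemma sgn_inj (a b : ZMod 2) (h : sgn a = sgn b) : a = b := by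
  revert a b; decide

lemma pp_dvd_lcm {p b x y : ℕ} (hp : p.Prime) (hx : x ≠ 0) (hy : y ≠ 0)
    (h : p ^ b ∣ Nat.lcm x y) : p ^ b ∣ x ∨ p ^ b ∣ y := by
  have hl : Nat.lcm x y ≠ 0 := Nat.lcm_ne_zero hx hy
  rw [hp.pow_dvd_iff_le_factorization hl, Nat.factorization_lcm hx hy] at h
  rw [hp.pow_dvd_iff_le_factorization hx, hp.pow_dvd_iff_le_factorization hy]
  simpa using h

theorem owrs : OwrsStmt := by
  intro p b hp hp2 hb
  set m : ℕ := p ^ b with hm
  have hm0 : m ≠ 0 := pow_ne_zero _ hp.ne_zero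
  have hm1 : 1 < m := Nat.one_lt_pow (by omega) hp.one_lt
  have : NeZero m := ⟨hm0⟩
  have : Fact (Nat.Prime 2) := ⟨Nat.prime_two⟩
  have hodd : Odd m := (hp.odd_of_ne_two hp2).pow
  have hne : NeZero ((m : ℕ) : ZMod 2) := by
    refine ⟨?_⟩
    rw [Ne, ZMod.natCast_eq_zero_iff]
    intro h
    exact (Nat.not_even_iff_odd.mpr hodd) (even_iff_two_dvd.mpr h)
  let K := CyclotomicField m (ZMod 2)
  have : IsCyclotomicExtension {m} (ZMod 2) K := CyclotomicField.isCyclotomicExtension m (ZMod 2)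
  have : FiniteDimensional (ZMod 2) K := IsCyclotomicExtension.finiteDimensional {m} (ZMod 2) K
  have : Finite K := Module.finite_of_finite (ZMod 2)
  have hch : CharP K 2 := charP_of_injective_algebraMap (algebraMap (ZMod 2) K).injective 2
  have h2 : (2 : K) = 0 := CharTwo.two_eq_zero
  -- the functional
  obtain ⟨L, hL⟩ : ∃ L : K →ₗ[ZMod 2] ZMod 2, L 1 ≠ 0 := by
    by_contra hcon
    push Not at hcon
    exact one_ne_zero ((Module.forall_dual_apply_eq_zero_iff (ZMod 2) (1 : K)).mp hcon)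
  -- a primitive root with large order of 1 + ζ
  have hz0 : IsPrimitiveRoot (IsCyclotomicExtension.zeta m (ZMod 2) K) m :=
    IsCyclotomicExtension.zeta_spec m (ZMod 2) K
  obtain ⟨ζ, hζ, hdvd⟩ : ∃ ζ : K, IsPrimitiveRoot ζ m ∧ m ∣ orderOf (1 + ζ) := by
    set z := IsCyclotomicExtension.zeta m (ZMod 2) K with hz
    have hzne : z ≠ 0 := hz0.ne_zero hm0
    have hne1 : ∀ y : K, IsPrimitiveRoot y m → 1 + y ≠ 0 := by
      intro y hy h
      have : y = 1 := by linear_combination h - h2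
      exact hy.ne_one hm1 this
    have hinv : IsPrimitiveRoot z⁻¹ m := hz0.inv
    have hfo : ∀ y : K, y ≠ 0 → orderOf y ≠ 0 := by
      intro y hy
      have h1 : 0 < orderOf (Units.mk0 y hy) := orderOf_pos _
      rw [← orderOf_units] at h1
      exact h1.ne'
    have hl : z ^ Nat.lcm (orderOf (1 + z)) (orderOf (1 + z⁻¹)) = 1 := by
      have e1 : z * (1 + z⁻¹) = 1 + z := by rw [mul_add, mul_one, mul_inv_cancel₀ hzne, add_comm]
      have e2 : (1 + z) ^ Nat.lcm (orderOf (1 + z)) (orderOf (1 + z⁻¹)) = 1 :=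
        orderOf_dvd_iff_pow_eq_one.mp (Nat.dvd_lcm_left _ _)
      have e3 : (1 + z⁻¹) ^ Nat.lcm (orderOf (1 + z)) (orderOf (1 + z⁻¹)) = 1 :=
        orderOf_dvd_iff_pow_eq_one.mp (Nat.dvd_lcm_right _ _)
      generalize Nat.lcm (orderOf (1 + z)) (orderOf (1 + z⁻¹)) = n at e2 e3 ⊢
      rw [← e1, mul_pow, e3, mul_one] at e2
      exact e2
    have hd := hz0.dvd_of_pow_eq_one _ hl
    rcases pp_dvd_lcm hp (hfo _ (hne1 _ hz0)) (hfo _ (hne1 _ hinv)) hd with h | h
    · exact ⟨z, hz0, h⟩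
    · exact ⟨z⁻¹, hinv, h⟩
  obtain ⟨s, hs⟩ := hdvd
  have hu0 : 0 < orderOf (1 + ζ) := by
    have hne0 : (1 + ζ) ≠ 0 := by
      intro h
      exact hζ.ne_one hm1 (by linear_combination h - h2)
    have h1 : 0 < orderOf (Units.mk0 _ hne0) := orderOf_pos _
    rwa [← orderOf_units] at h1
  have hs0 : 0 < s := by
    rcases Nat.eq_zero_or_pos s with h | h
    · rw [h, mul_zero] at hs; omega
    · exact h
  have hw : IsPrimitiveRoot ((1 + ζ) ^ s) m := by
    have h1 : IsPrimitiveRoot (1 + ζ) (m * s) := by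
      rw [← hs]; exact IsPrimitiveRoot.orderOf _
    have h3 := h1.pow (Nat.mul_pos (Nat.pos_of_ne_zero hm0) hs0) (mul_comm m s)
    exact h3
  obtain ⟨i, -, hi, hii⟩ := (hζ.isPrimitiveRoot_iff).mp hw
  -- span
  have hspan : ∀ x : K, (∀ n : ℕ, L (x * ζ ^ n) = 0) → x = 0 := by
    intro x hx
    by_contra hx0
    have htop := IsCyclotomicExtension.adjoin_primitive_root_eq_top (A := ZMod 2) (B := K) hζ
    have hall : ∀ y : K, L (x * y) = 0 := by
      intro y
      have hy : y ∈ Algebra.adjoin (ZMod 2) {ζ} := by rw [htop]; trivial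
      rw [Algebra.adjoin_singleton_eq_range_aeval] at hy
      obtain ⟨P, hP⟩ := hy
      have hP' : y = Polynomial.aeval ζ P := hP.symm
      rw [hP', Polynomial.aeval_eq_sum_range, Finset.mul_sum, map_sum]
      refine Finset.sum_eq_zero fun n _ => ?_
      rw [mul_smul_comm, map_smul, hx n, smul_zero]
    have := hall x⁻¹
    rw [mul_inv_cancel₀ hx0] at this
    exact hL this
  -- the vector
  have hzm : ζ ^ m = 1 := hζ.pow_eq_one
  let z : ZMod m → K := fun j => ζ ^ j.val
  have hzadd : ∀ (j : ZMod m) (l : ℕ), z (j + (l : ZMod m)) = ζ ^ l * z j := by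
    intro j l
    change ζ ^ (j + (l : ZMod m)).val = ζ ^ l * ζ ^ j.val
    rw [← pow_add]
    have h1 : ((l + j.val : ℕ) : ZMod m) = j + (l : ZMod m) := by
      push_cast
      rw [ZMod.natCast_zmod_val, add_comm]
    rw [← h1, ZMod.val_natCast]
    exact (pow_eq_pow_mod _ hzm).symm
  let E : K → ZMod m → ℤˣ := fun c j => sgn (L (c * z j))
  have hE : ∀ c, tws (E c) = E (c * (1 + ζ)) := by
    intro c
    funext j
    change sgn (L (c * z j)) * sgn (L (c * z (j + 1))) = sgn (L (c * (1 + ζ) * z j))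
    have h1 := hzadd j 1
    rw [Nat.cast_one, pow_one] at h1
    rw [← sgn_add, ← map_add, h1]
    congr 2
    ring
  have hEs : ∀ (n : ℕ) (c : K), tws^[n] (E c) = E (c * (1 + ζ) ^ n) := by
    intro n
    induction n with
    | zero => intro c; simp
    | succ n ih =>
      intro c
      rw [Function.iterate_succ_apply, hE, ih]
      congr 1
      ring
  have hzn : ∀ n : ℕ, z (n : ZMod m) = ζ ^ n := by
    intro n
    have h1 := hzadd 0 n
    rw [zero_add] at h1
    rw [h1]
    change ζ ^ n * ζ ^ (0 : ZMod m).val = ζ ^ n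
    rw [ZMod.val_zero, pow_zero, mul_one]
  refine ⟨E 1, s, i, hs0, ?_, ?_, ?_, ?_⟩
  · intro hpi
    have h1 : p ∣ Nat.gcd i m := Nat.dvd_gcd hpi (dvd_pow_self p (by omega))
    rw [hi] at h1
    exact hp.one_lt.ne' (Nat.dvd_one.mp h1)
  · by_contra hcon
    push Not at hcon
    have h1 : ∀ n : ℕ, L (1 * ζ ^ n) = 0 := by
      intro n
      have h3 := (Int.units_eq_one_or (E 1 (n : ZMod m))).resolve_right (hcon _)
      have h4 := sgn_eq_one _ h3
      rwa [hzn] at h4
    exact one_ne_zero (hspan 1 h1)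
  · intro l hl
    have h1 : ∀ n : ℕ, L ((ζ ^ l - 1) * ζ ^ n) = 0 := by
      intro n
      have h3 := sgn_inj _ _ (hl (n : ZMod m))
      rw [hzadd, hzn, one_mul, one_mul] at h3
      rw [sub_mul, one_mul, map_sub, h3, sub_self]
    have h3 := hspan _ h1
    exact hζ.dvd_of_pow_eq_one l (sub_eq_zero.mp h3)
  · rw [hEs, one_mul, ← hii]
    funext j
    change sgn (L (ζ ^ i * z j)) = sgn (L (1 * z (j + (i : ZMod m))))
    rw [hzadd, one_mul]

end Pool.Agent.Eng.H70
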